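import Pool.Agent.Helper6.LP.St

/-!
# Project LP, module RRP: the class of `y`
-/

set_option autoImplicit false

namespace Pool.Agent.Helper69.LP

open Pool.Agent.Helper6.LP Finset

private lemma cast_ff (q : ℕ) (a : ℤ) (y : ℤ) : ((ff a y : ℤ) : ZMod q) =
    ((a : ZMod q) - y + a * y) * (((a : ZMod q) - y) ^ 2 + a * (y : ZMod q) ^ 2) := by
  unfold ff fa fb
  push_cast
  ring

private lemma big (q : ℕ) (hq : q.Prime) (h5 : 5 ≤ q) (a : ℤ) : ∃ y : ℕ, ¬ (q : ℤ) ∣ ff a y := by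
  haveI : Fact q.Prime := ⟨hq⟩
  obtain ⟨A, hA⟩ : ∃ A : ZMod q, A = (a : ZMod q) := ⟨_, rfl⟩
  obtain ⟨f1, hf1⟩ : ∃ f : Polynomial (ZMod q), f = Polynomial.C A +
      Polynomial.C (A - 1) * Polynomial.X := ⟨_, rfl⟩
  obtain ⟨f2, hf2⟩ : ∃ f : Polynomial (ZMod q), f = Polynomial.C (1 + A) * Polynomial.X ^ 2 -
      Polynomial.C (2 * A) * Polynomial.X + Polynomial.C (A ^ 2) := ⟨_, rfl⟩
  have n1 : f1 ≠ 0 := by
    intro h
    have e0 := congrArg (Polynomial.eval 0) h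
    have e1 := congrArg (Polynomial.eval 1) h
    rw [hf1] at e0 e1
    simp at e0 e1
    rw [e0] at e1
    simp at e1
  have n2 : f2 ≠ 0 := by
    intro h
    have e0 := congrArg (Polynomial.eval 0) h
    have e1 := congrArg (Polynomial.eval 1) h
    rw [hf2] at e0 e1
    simp at e0 e1
    rw [e0] at e1
    simp at e1
  have d1 : f1.natDegree ≤ 1 := by
    rw [hf1]
    compute_degree
  have d2 : f2.natDegree ≤ 2 := by
    rw [hf2]
    compute_degree
  have d : (f1 * f2).natDegree < q := by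
    have := Polynomial.natDegree_mul_le (p := f1) (q := f2)
    omega
  have hcard : ((f1 * f2).natDegree : Cardinal) < Cardinal.mk (ZMod q) := by
    rw [Cardinal.mk_fintype, ZMod.card]
    exact_mod_cast d
  obtain ⟨y, hy⟩ := Polynomial.exists_eval_ne_zero_of_natDegree_lt_card (f1 * f2)
    (mul_ne_zero n1 n2) hcard
  refine ⟨y.val, fun hdvd => hy ?_⟩
  have h0 := (ZMod.intCast_zmod_eq_zero_iff_dvd _ q).2 hdvd
  rw [cast_ff] at h0
  have hyv : ((y.val : ℤ) : ZMod q) = y := by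
    rw [Int.cast_natCast, ZMod.natCast_zmod_val]
  rw [hyv, ← hA] at h0
  rw [Polynomial.eval_mul, hf1, hf2]
  simp only [Polynomial.eval_add, Polynomial.eval_sub, Polynomial.eval_mul, Polynomial.eval_C,
    Polynomial.eval_X, Polynomial.eval_pow]
  rw [← h0]
  ring

private lemma ex_class (q : ℕ) (hq : q.Prime) (a : ℤ) : ∃ y : ℕ, ¬ (q : ℤ) ∣ ff a y := by
  by_cases h5 : 5 ≤ q
  · exact big q hq h5 a
  · have hq' : q = 2 ∨ q = 3 := by
      have h2 := hq.two_le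
      have h4 : q ≠ 4 := by
        rintro rfl
        exact absurd hq (by norm_num)
      omega
    rcases hq' with rfl | rfl
    · refine ⟨1, fun h => ?_⟩
      have h0 := (ZMod.intCast_zmod_eq_zero_iff_dvd _ 2).2 h
      rw [cast_ff] at h0
      generalize ((a : ℤ) : ZMod 2) = A at h0
      revert h0 A
      decide
    · have key : ∀ A : ZMod 3, ∃ y : ℕ, y < 2 ∧
          (A - ((y : ℤ) : ZMod 3) + A * ((y : ℤ) : ZMod 3)) *
          ((A - ((y : ℤ) : ZMod 3)) ^ 2 + A * ((y : ℤ) : ZMod 3) ^ 2) ≠ 0 := by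
        decide
      obtain ⟨y, -, hy⟩ := key (a : ZMod 3)
      refine ⟨y, fun h => hy ?_⟩
      have h0 := (ZMod.intCast_zmod_eq_zero_iff_dvd _ 3).2 h
      rw [cast_ff] at h0
      exact h0

/-- RRP. -/
theorem hRRP : StRRP := by
  intro p a
  classical
  choose! Y hY using fun (q : ℕ) (hq : q.Prime) => ex_class q hq (a : ℤ)
  let t : Finset ℕ := (range (p + 1)).filter Nat.Prime
  have ht : ∀ q, q ∈ t ↔ q ≤ p ∧ q.Prime := by
    intro q
    simp [t, Nat.lt_succ_iff]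
  have hs : ∀ i ∈ t, (fun q : ℕ => q) i ≠ 0 := fun i hi => ((ht i).1 hi).2.ne_zero
  have pp : Set.Pairwise (t : Set ℕ) (Function.onFun Nat.Coprime fun q : ℕ => q) := by
    intro i hi j hj hij
    exact (Nat.coprime_primes ((ht i).1 hi).2 ((ht j).1 hj).2).2 hij
  obtain ⟨r0, hr0⟩ : ∃ r0 : ℕ, r0 < primorial p ∧ ∀ q ∈ t, r0 ≡ Y q [MOD q] :=
    ⟨Nat.chineseRemainderOfFinset Y (fun q => q) t hs pp,
      Nat.chineseRemainderOfFinset_lt_prod Y (fun q => q) hs pp,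
      (Nat.chineseRemainderOfFinset Y (fun q => q) t hs pp).2⟩
  have hfin : ∀ r : ℕ, (∀ q ∈ t, r ≡ Y q [MOD q]) → ∀ q : ℕ, q.Prime → q ≤ p →
      ¬ (q : ℤ) ∣ ff a r := by
    intro r hr q hq hqp hdvd
    apply hY q hq
    have h1 := (ZMod.natCast_eq_natCast_iff r (Y q) q).2 (hr q ((ht q).2 ⟨hqp, hq⟩))
    have h0 := (ZMod.intCast_zmod_eq_zero_iff_dvd _ q).2 hdvd
    rw [cast_ff, Int.cast_natCast r, h1] at h0
    apply (ZMod.intCast_zmod_eq_zero_iff_dvd _ q).1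
    rw [cast_ff, Int.cast_natCast (Y q)]
    exact h0
  rcases Nat.eq_zero_or_pos r0 with h | h
  · refine ⟨primorial p, primorial_pos p, le_rfl, hfin _ fun q hq => ?_⟩
    have h1 := hr0.2 q hq
    rw [h] at h1
    refine Nat.ModEq.trans ?_ h1
    have h2 : q ∣ primorial p := Finset.dvd_prod_of_mem (fun q : ℕ => q) hq
    exact (Nat.modEq_zero_iff_dvd).2 h2
  · exact ⟨r0, h, hr0.1.le, hfin _ hr0.2⟩

end Pool.Agent.Helper69.LP
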